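import Pool.Agent.H32.Flow2

set_option autoImplicit false

namespace Pool.Agent.Results.MP_0b8746_pr.NotSqrtMN

open MeasureTheory Pool.Agent.H32.Flow
open scoped NNReal

theorem result (F : Measure ℝ≥0) [IsProbabilityMeasure F]
    (hF : MemLp (fun x : ℝ≥0 => (x : ℝ)) 2 F) (c : ℝ) (hc : 0 < c) :
    ∃ m0 : ℕ, ∀ m : ℕ, m0 ≤ m → ∃ n1 : ℕ, ∀ n : ℕ, n1 ≤ n →
      Integrable opt (Measure.pi fun _ : Fin n => Measure.pi fun _ : Fin m => F) ∧
      ∫ T, (opt T - ((n : ℝ) + m - 1) * ∫ x, (x : ℝ) ∂F)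
        ∂(Measure.pi fun _ : Fin n => Measure.pi fun _ : Fin m => F) < c * √((m : ℝ) * n) :=
  main hF hc

end Pool.Agent.Results.MP_0b8746_pr.NotSqrtMN
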